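import Pool.Agent.Lib.MP_7d48f8_nt.KL

/-! The second derivative test for sums. -/

namespace Pool.Agent.Lib.MP_7d48f8_nt

open Complex MeasureTheory Set

theorem vvd_low {δ : ℕ → ℝ} {a b : ℕ} {lam : ℝ}
    (hm : ∀ n, a ≤ n → n + 1 < b → lam ≤ δ (n + 1) - δ n) {c n : ℕ} (hc : a ≤ c) (hn : c ≤ n)
    (hb : n < b) : δ c + lam * ((n : ℝ) - c) ≤ δ n := by
  induction n, hn using Nat.le_induction with
  | base => simp
  | succ n hn ih =>
    have h1 := ih (by omega)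
    have h2 := hm n (by omega) hb
    push_cast
    linarith

theorem vvd_split {δ : ℕ → ℝ} {a b : ℕ} {lam : ℝ} (hab : a ≤ b) (hl : 0 < lam)
    (hm : ∀ n, a ≤ n → n + 1 < b → lam ≤ δ (n + 1) - δ n) (t : ℝ) :
    ∃ c, a ≤ c ∧ c ≤ b ∧ (∀ n, a ≤ n → n < c → δ n ≤ t) ∧ ∀ n, c ≤ n → n < b → t ≤ δ n := by
  classical
  have hex : ∃ c, a ≤ c ∧ (b ≤ c ∨ t ≤ δ c) := ⟨b, hab, Or.inl le_rfl⟩
  have h1 := Nat.find_spec hex
  have h2 : Nat.find hex ≤ b := Nat.find_min' hex ⟨hab, Or.inl le_rfl⟩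
  refine ⟨Nat.find hex, h1.1, h2, fun n hn hn' => ?_, fun n hn hn' => ?_⟩
  · by_contra h
    exact Nat.find_min hex hn' ⟨hn, Or.inr (not_le.1 h).le⟩
  · have h3 := h1.2.resolve_left (by omega)
    have h4 := vvd_low hm h1.1 hn hn'
    have h5 : (Nat.find hex : ℝ) ≤ n := by exact_mod_cast hn
    nlinarith

theorem vvd_triv (φ : ℕ → ℝ) {a b : ℕ} (hab : a ≤ b) :
    ‖∑ n ∈ Finset.Ico a b, exp (I * (φ n : ℝ))‖ ≤ (b : ℝ) - a := by
  refine (norm_sum_le _ _).trans (le_of_eq ?_)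
  simp [Complex.norm_exp_I_mul_ofReal, Nat.cast_sub hab]

theorem vvd_short {φ : ℕ → ℝ} {a b : ℕ} {lam η s : ℝ} (hab : a ≤ b) (hl : 0 < lam) (hη : 0 < η)
    (hm : ∀ n, a ≤ n → n + 1 < b → lam ≤ (φ (n + 1 + 1) - φ (n + 1)) - (φ (n + 1) - φ n))
    (h : ∀ n, a ≤ n → n < b → s ≤ φ (n + 1) - φ n ∧ φ (n + 1) - φ n ≤ s + η) :
    ‖∑ n ∈ Finset.Ico a b, exp (I * (φ n : ℝ))‖ ≤ η / lam + 1 := by
  refine (vvd_triv φ hab).trans ?_
  rcases hab.eq_or_lt with rfl | hlt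
  · rw [sub_self]; positivity
  · obtain ⟨c, rfl⟩ : ∃ c, b = c + 1 := ⟨b - 1, by omega⟩
    have h1 := vvd_low (δ := fun n => φ (n + 1) - φ n) hm le_rfl (show a ≤ c by omega) (by omega)
    have h2 := (h a le_rfl hlt).1
    have h3 := (h c (by omega) (by omega)).2
    have h4 : (c : ℝ) - a ≤ η / lam := by
      rw [le_div_iff₀ hl]
      beta_reduce at h1
      linarith
    push_cast
    linarith

theorem vvd_add (φ : ℕ → ℝ) {a c b : ℕ} (h1 : a ≤ c) (h2 : c ≤ b) {B B' : ℝ}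
    (hB : ‖∑ n ∈ Finset.Ico a c, exp (I * (φ n : ℝ))‖ ≤ B)
    (hB' : ‖∑ n ∈ Finset.Ico c b, exp (I * (φ n : ℝ))‖ ≤ B') :
    ‖∑ n ∈ Finset.Ico a b, exp (I * (φ n : ℝ))‖ ≤ B + B' := by
  rw [← Finset.sum_Ico_consecutive _ h1 h2]
  exact (norm_add_le _ _).trans (add_le_add hB hB')

theorem vvd_one {φ : ℕ → ℝ} {a b : ℕ} {lam η : ℝ} (k : ℤ) (hab : a ≤ b) (hl : 0 < lam) (hη : 0 < η)
    (hm : ∀ n, a ≤ n → n + 1 < b → lam ≤ (φ (n + 1 + 1) - φ (n + 1)) - (φ (n + 1) - φ n))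
    (h : ∀ n, a ≤ n → n < b → 2 * Real.pi * k ≤ φ (n + 1) - φ n ∧
      φ (n + 1) - φ n ≤ 2 * Real.pi * (k + 1)) :
    ‖∑ n ∈ Finset.Ico a b, exp (I * (φ n : ℝ))‖ ≤ 10 / η + 2 * (η / lam + 1) := by
  obtain ⟨c, c1, c2, c3, c4⟩ := vvd_split (δ := fun n => φ (n + 1) - φ n) hab hl hm
    (2 * Real.pi * k + η)
  obtain ⟨d, d1, d2, d3, d4⟩ := vvd_split (δ := fun n => φ (n + 1) - φ n) c2 hl
    (fun n h1 h2 => hm n (by omega) h2) (2 * Real.pi * (k + 1) - η)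
  have s1 := vvd_short (s := 2 * Real.pi * k) c1 hl hη (fun n h1 h2 => hm n h1 (by omega))
    fun n h1 h2 => ⟨(h n h1 (by omega)).1, c3 n h1 h2⟩
  have s2 := kl_mono (φ := φ) (a := c) (b := d) k hη
    (fun n h1 h2 => by linarith [hm n (by omega) (by omega)])
    fun n h1 h2 => ⟨c4 n h1 (by omega), d3 n h1 h2⟩
  have s3 := vvd_short (s := 2 * Real.pi * (k + 1) - η) d2 hl hη
    (fun n h1 h2 => hm n (by omega) h2)
    fun n h1 h2 => ⟨d4 n h1 h2, by linarith [(h n (by omega) h2).2]⟩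
  linarith [vvd_add φ c1 c2 s1 (vvd_add φ d1 d2 s2 s3)]

theorem vvd_many {φ : ℕ → ℝ} {a : ℕ} {lam η : ℝ} (k : ℤ) (hl : 0 < lam) (hη : 0 < η) (m : ℕ) :
    ∀ b : ℕ, a ≤ b →
    (∀ n, a ≤ n → n + 1 < b → lam ≤ (φ (n + 1 + 1) - φ (n + 1)) - (φ (n + 1) - φ n)) →
    (∀ n, a ≤ n → n < b → 2 * Real.pi * k ≤ φ (n + 1) - φ n ∧
      φ (n + 1) - φ n ≤ 2 * Real.pi * (k + m + 1)) →
    ‖∑ n ∈ Finset.Ico a b, exp (I * (φ n : ℝ))‖ ≤ (m + 1) * (10 / η + 2 * (η / lam + 1)) := by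
  induction m with
  | zero =>
    intro b hab hm h
    simpa using vvd_one k hab hl hη hm (by simpa using h)
  | succ m ih =>
    intro b hab hm h
    obtain ⟨c, c1, c2, c3, c4⟩ := vvd_split (δ := fun n => φ (n + 1) - φ n) hab hl hm
      (2 * Real.pi * (k + m + 1))
    have s1 := ih c c1 (fun n h1 h2 => hm n h1 (by omega))
      fun n h1 h2 => ⟨(h n h1 (by omega)).1, c3 n h1 h2⟩
    have s2 := vvd_one (k + m + 1) c2 hl hη (fun n h1 h2 => hm n (by omega) h2) fun n h1 h2 =>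
      ⟨by push_cast; exact c4 n h1 h2, by
        have h3 := (h n (by omega) h2).2
        push_cast at h3 ⊢
        linarith⟩
    refine (vvd_add φ c1 c2 s1 s2).trans (le_of_eq ?_)
    push_cast
    ring

/- If `1 ≤ lam` the trivial bound `b - a` is enough.  Else let `η = √lam`, `δ n = φ (n + 1) - φ n`, increasing with
total increase at most `h lam (b - a)`.  Classify `n` by `k = ⌊δ n / (2 π)⌋` (at most `h lam (b - a) / (2 π) + 2` values).  For fixed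
`k` the `n` with `δ n ∈ [2 π k + η, 2 π (k + 1) - η]` form an interval `Ico c d` (`kl_mono`), and at most `η / lam + 1` values of `n`
have `δ n` in a given interval of length `η`.  (Alternative: strong induction on the number of values of `k`.) -/
theorem vdc_pos : ∃ C : ℝ, 0 < C ∧ ∀ (φ : ℕ → ℝ) (a b : ℕ) (lam h : ℝ), a ≤ b → 0 < lam → 1 ≤ h →
    (∀ n, a ≤ n → n + 1 < b → lam ≤ φ (n + 2) - 2 * φ (n + 1) + φ n ∧
      φ (n + 2) - 2 * φ (n + 1) + φ n ≤ h * lam) →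
    ‖∑ n ∈ Finset.Ico a b, exp (I * (φ n : ℝ))‖ ≤ C * (h * ((b : ℝ) - a) * √lam + 1 / √lam) := by
  refine ⟨28, by norm_num, fun φ a b lam h hab hl hh H => ?_⟩
  have hN : (0 : ℝ) ≤ (b : ℝ) - a := sub_nonneg.2 (by exact_mod_cast hab)
  set η := √lam with hη
  have hη0 : 0 < η := Real.sqrt_pos.2 hl
  have hη2 : η ^ 2 = lam := Real.sq_sqrt hl.le
  have hi : 0 < 1 / η := by positivity
  rcases le_total 1 lam with h1 | h1
  · have h2 : 1 ≤ η := Real.one_le_sqrt.2 h1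
    have h3 : 1 ≤ h * η := one_le_mul_of_one_le_of_one_le hh h2
    refine (vvd_triv φ hab).trans ?_
    nlinarith [mul_le_mul_of_nonneg_left h3 hN]
  have h2 : η ≤ 1 := Real.sqrt_le_one.2 h1
  have hm : ∀ n, a ≤ n → n + 1 < b → lam ≤ (φ (n + 1 + 1) - φ (n + 1)) - (φ (n + 1) - φ n) :=
    fun n h3 h4 => by linarith [(H n h3 h4).1]
  have hm' : ∀ n, a ≤ n → n + 1 < b →
      -(h * lam) ≤ -(φ (n + 1 + 1) - φ (n + 1)) - -(φ (n + 1) - φ n) :=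
    fun n h3 h4 => by linarith [(H n h3 h4).2]
  have hpi : 1 ≤ 2 * Real.pi := by linarith [Real.pi_gt_three]
  have hhl : 0 ≤ h * lam := by positivity
  set k := ⌊(φ (a + 1) - φ a) / (2 * Real.pi)⌋ with hk
  have k1 : 2 * Real.pi * k ≤ φ (a + 1) - φ a := by
    rw [mul_comm, ← le_div_iff₀ (by linarith)]; exact Int.floor_le _
  have k2 : φ (a + 1) - φ a ≤ 2 * Real.pi * (k + 1) := by
    rw [mul_comm, ← div_le_iff₀ (by linarith)]; exact (Int.lt_floor_add_one _).le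
  set m := ⌈h * lam * ((b : ℝ) - a)⌉₊ with hmd
  have m1 : h * lam * ((b : ℝ) - a) ≤ m := Nat.le_ceil _
  have m2 : (m : ℝ) ≤ h * lam * ((b : ℝ) - a) + 1 := (Nat.ceil_lt_add_one (by positivity)).le
  have m0 : (0 : ℝ) ≤ m := Nat.cast_nonneg m
  have key := vvd_many (φ := φ) k hl hη0 m b hab hm fun n h3 h4 => by
    have h5 := vvd_low (δ := fun n => φ (n + 1) - φ n) hm le_rfl h3 h4
    have h6 := vvd_low (δ := fun n => -(φ (n + 1) - φ n)) hm' le_rfl h3 h4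
    have h7 : (a : ℝ) ≤ n := by exact_mod_cast h3
    have h8 : (n : ℝ) ≤ b := by exact_mod_cast h4.le
    beta_reduce at h5 h6
    constructor
    · nlinarith
    · have h9 : h * lam * ((n : ℝ) - a) ≤ h * lam * ((b : ℝ) - a) :=
        mul_le_mul_of_nonneg_left (by linarith) hhl
      nlinarith
  refine key.trans ?_
  have e1 : η / lam = 1 / η := by rw [← hη2]; field_simp
  have e2 : 1 ≤ 1 / η := by rw [le_div_iff₀ hη0]; linarith
  have e3 : 10 / η + 2 * (η / lam + 1) ≤ 14 * (1 / η) := by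
    rw [e1, div_eq_mul_one_div 10 η]; linarith
  have e4 : lam * (1 / η) = η := by rw [← hη2]; field_simp
  calc ((m : ℝ) + 1) * (10 / η + 2 * (η / lam + 1))
      ≤ (h * lam * ((b : ℝ) - a) + 2) * (14 * (1 / η)) :=
        mul_le_mul (by linarith) e3 (by positivity) (by positivity)
    _ = 14 * (h * ((b : ℝ) - a) * (lam * (1 / η))) + 28 * (1 / η) := by ring
    _ ≤ _ := by
        rw [e4]
        have : 0 ≤ h * ((b : ℝ) - a) * η := by positivity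
        linarith

theorem vvd_mvt {φ φ' φ'' : ℝ → ℝ} {a b : ℝ} (h1 : ∀ t ∈ Icc a b, HasDerivAt φ (φ' t) t)
    (h2 : ∀ t ∈ Icc a b, HasDerivAt φ' (φ'' t) t) {x : ℝ} (ha : a ≤ x) (hb : x + 2 ≤ b) :
    ∃ t ∈ Icc a b, φ (x + 2) - 2 * φ (x + 1) + φ x = φ'' t := by
  have hg : ∀ t ∈ Icc x (x + 1), HasDerivAt (fun t => φ (t + 1) - φ t) (φ' (t + 1) - φ' t) t :=
    fun t ht => (HasDerivAt.comp_add_const t 1 (h1 (t + 1) ⟨by linarith [ht.1], by linarith [ht.2]⟩)).sub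
      (h1 t ⟨by linarith [ht.1], by linarith [ht.2]⟩)
  obtain ⟨ξ, hξ, e1⟩ := exists_hasDerivAt_eq_slope (fun t => φ (t + 1) - φ t)
    (fun t => φ' (t + 1) - φ' t) (show x < x + 1 by linarith)
    (fun t ht => (hg t ht).continuousAt.continuousWithinAt) fun t ht => hg t ⟨ht.1.le, ht.2.le⟩
  have hd : ∀ t ∈ Icc ξ (ξ + 1), HasDerivAt φ' (φ'' t) t := fun t ht =>
    h2 t ⟨by linarith [ht.1, hξ.1], by linarith [ht.2, hξ.2]⟩
  obtain ⟨ζ, hζ, e2⟩ := exists_hasDerivAt_eq_slope φ' φ'' (show ξ < ξ + 1 by linarith)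
    (fun t ht => (hd t ht).continuousAt.continuousWithinAt) fun t ht => hd t ⟨ht.1.le, ht.2.le⟩
  refine ⟨ζ, ⟨by linarith [hζ.1, hξ.1], by linarith [hζ.2, hξ.2]⟩, ?_⟩
  rw [add_sub_cancel_left, div_one] at e1 e2
  rw [show x + 1 + 1 = x + 2 by ring] at e1
  linarith

/- The second difference is `φ'' ξ` for some `ξ ∈ (n, n + 2)`: the mean value theorem for `t ↦ φ (t + 1) - φ t`
and then for `φ'` (`exists_hasDerivAt_eq_slope`).  In the second case apply the first one to `-φ`. -/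
theorem vdc : ∃ C : ℝ, 0 < C ∧ ∀ (φ φ' φ'' : ℝ → ℝ) (a b : ℕ) (lam h : ℝ), a ≤ b → 0 < lam → 1 ≤ h →
    (∀ t ∈ Icc (a : ℝ) b, HasDerivAt φ (φ' t) t) → (∀ t ∈ Icc (a : ℝ) b, HasDerivAt φ' (φ'' t) t) →
    ((∀ t ∈ Icc (a : ℝ) b, lam ≤ φ'' t ∧ φ'' t ≤ h * lam) ∨
      ∀ t ∈ Icc (a : ℝ) b, lam ≤ -φ'' t ∧ -φ'' t ≤ h * lam) →
    ‖∑ n ∈ Finset.Ico a b, exp (I * (φ n : ℝ))‖ ≤ C * (h * ((b : ℝ) - a) * √lam + 1 / √lam) := by
  obtain ⟨C, hC, H⟩ := vdc_pos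
  refine ⟨C, hC, fun φ φ' φ'' a b lam h hab hl hh h1 h2 h3 => ?_⟩
  have key : ∀ n : ℕ, a ≤ n → n + 1 < b → ∃ t ∈ Icc (a : ℝ) b,
      φ (n + 2 : ℕ) - 2 * φ (n + 1 : ℕ) + φ n = φ'' t := fun n h4 h5 => by
    push_cast
    exact vvd_mvt h1 h2 (by exact_mod_cast h4) (by exact_mod_cast h5)
  rcases h3 with h3 | h3
  · refine H (fun n => φ n) a b lam h hab hl hh fun n h4 h5 => ?_
    obtain ⟨t, ht, e⟩ := key n h4 h5
    rw [e]
    exact h3 t ht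
  · have h6 := H (fun n => -φ n) a b lam h hab hl hh fun n h4 h5 => by
      obtain ⟨t, ht, e⟩ := key n h4 h5
      have h7 := h3 t ht
      constructor <;> linarith [h7.1, h7.2]
    refine le_trans (le_of_eq ?_) h6
    rw [← Complex.norm_conj, map_sum]
    congr 1
    refine Finset.sum_congr rfl fun n _ => ?_
    rw [← Complex.exp_conj]
    simp

end Pool.Agent.Lib.MP_7d48f8_nt
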