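import Mathlib

/-! Abel summation and the inequality of Kusmin and Landau. -/

namespace Pool.Agent.Lib.MP_7d48f8_nt

open Complex MeasureTheory Set

/- `Finset.sum_Ico_by_parts`, or induction. -/
theorem abel {ω z : ℕ → ℂ} {a b : ℕ} {B ω₀ ω₁ : ℝ} (hab : a ≤ b)
    (hz : ∀ c, a ≤ c → c ≤ b → ‖∑ n ∈ Finset.Ico a c, z n‖ ≤ B)
    (h0 : ∀ n, a ≤ n → n ≤ b → ‖ω n‖ ≤ ω₀) (h1 : ∀ n, a ≤ n → n < b → ‖ω (n + 1) - ω n‖ ≤ ω₁) :
    ‖∑ n ∈ Finset.Ico a b, ω n * z n‖ ≤ (ω₀ + ((b : ℝ) - a) * ω₁) * B := by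
  have hid : ∀ c, a ≤ c → ∑ n ∈ Finset.Ico a c, ω n * z n =
      ω c * ∑ n ∈ Finset.Ico a c, z n -
        ∑ n ∈ Finset.Ico a c, (ω (n + 1) - ω n) * ∑ m ∈ Finset.Ico a (n + 1), z m := by
    intro c hc
    induction c, hc using Nat.le_induction with
    | base => simp
    | succ c hc ih =>
      rw [Finset.sum_Ico_succ_top hc, ih, Finset.sum_Ico_succ_top hc
        (fun n => (ω (n + 1) - ω n) * ∑ m ∈ Finset.Ico a (n + 1), z m),
        Finset.sum_Ico_succ_top hc z]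
      ring
  have hB : 0 ≤ B := (norm_nonneg _).trans (hz a le_rfl hab)
  have hω : 0 ≤ ω₀ := (norm_nonneg _).trans (h0 a le_rfl hab)
  rw [hid b hab]
  refine (norm_sub_le _ _).trans ?_
  have e1 : ‖ω b * ∑ n ∈ Finset.Ico a b, z n‖ ≤ ω₀ * B := by
    rw [norm_mul]
    exact mul_le_mul (h0 b hab le_rfl) (hz b hab le_rfl) (norm_nonneg _) hω
  have e2 : ‖∑ n ∈ Finset.Ico a b, (ω (n + 1) - ω n) * ∑ m ∈ Finset.Ico a (n + 1), z m‖ ≤
      ∑ _n ∈ Finset.Ico a b, ω₁ * B := by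
    refine norm_sum_le_of_le _ fun n hn => ?_
    rw [Finset.mem_Ico] at hn
    rw [norm_mul]
    have h2 := h1 n hn.1 hn.2
    exact mul_le_mul h2 (hz (n + 1) (by omega) (by omega)) (norm_nonneg _)
      ((norm_nonneg _).trans h2)
  rw [Finset.sum_const, Nat.card_Ico, nsmul_eq_mul, Nat.cast_sub hab] at e2
  linarith

theorem vkl_sin {θ η : ℝ} (h1 : η / 2 ≤ θ) (h2 : θ ≤ Real.pi - η / 2) (hη : 0 < η) :
    η / Real.pi ≤ Real.sin θ := by
  have hp := Real.pi_pos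
  rcases le_total θ (Real.pi / 2) with h | h
  · refine le_trans ?_ (Real.mul_le_sin (by linarith) h)
    rw [div_mul_eq_mul_div]
    exact div_le_div_of_nonneg_right (by linarith) hp.le
  · rw [← Real.sin_pi_sub]
    refine le_trans ?_ (Real.mul_le_sin (by linarith) (by linarith))
    rw [div_mul_eq_mul_div]
    exact div_le_div_of_nonneg_right (by linarith) hp.le

theorem vkl_cot_le {θ η : ℝ} (h1 : η / 2 ≤ θ) (h2 : θ ≤ Real.pi - η / 2) (hη : 0 < η) :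
    |Real.cos θ / Real.sin θ| ≤ Real.pi / η := by
  have hp := Real.pi_pos
  have hs := vkl_sin h1 h2 hη
  have hq : 0 < η / Real.pi := by positivity
  have hs0 : 0 < Real.sin θ := hq.trans_le hs
  rw [abs_div, abs_of_pos hs0]
  calc |Real.cos θ| / Real.sin θ ≤ 1 / (η / Real.pi) :=
        div_le_div₀ zero_le_one (Real.abs_cos_le_one θ) hq hs
    _ = Real.pi / η := by rw [one_div_div]

theorem vkl_cot_anti {x y : ℝ} (hx : 0 < x) (hxy : x ≤ y) (hy : y < Real.pi) :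
    Real.cos y / Real.sin y ≤ Real.cos x / Real.sin x := by
  have h1 : 0 < Real.sin x := Real.sin_pos_of_pos_of_lt_pi hx (by linarith)
  have h2 : 0 < Real.sin y := Real.sin_pos_of_pos_of_lt_pi (by linarith) hy
  have h3 : 0 ≤ Real.sin (y - x) := Real.sin_nonneg_of_nonneg_of_le_pi (by linarith) (by linarith)
  rw [Real.sin_sub] at h3
  rw [div_le_div_iff₀ h2 h1]
  linarith

theorem vkl_om {θ : ℝ} (hs : Real.sin θ ≠ 0) :
    (-1 / 2 - I / 2 * ((Real.cos θ / Real.sin θ : ℝ) : ℂ)) * (exp (I * (2 * θ : ℝ)) - 1) = 1 := by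
  have h1 : exp (I * (2 * θ : ℝ)) = ((Real.cos θ : ℂ) + (Real.sin θ : ℂ) * I) ^ 2 := by
    rw [ofReal_cos, ofReal_sin, ← exp_mul_I, sq, ← exp_add]
    congr 1
    push_cast
    ring
  have h2 : ((Real.sin θ : ℝ) : ℂ) ≠ 0 := ofReal_ne_zero.2 hs
  have h3 : ((Real.sin θ : ℝ) : ℂ) ^ 2 + ((Real.cos θ : ℝ) : ℂ) ^ 2 = 1 := by
    exact_mod_cast Real.sin_sq_add_cos_sq θ
  rw [h1, ofReal_div]
  generalize ((Real.sin θ : ℝ) : ℂ) = s at h2 h3
  generalize ((Real.cos θ : ℝ) : ℂ) = c at h3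
  have h4 : c / s * s = c := div_mul_cancel₀ c h2
  generalize c / s = t at h4
  subst h4
  have hI : I ^ 2 = -1 := I_sq
  linear_combination (1 / 2 - I / 2 * t) * h3 +
    (-(1 / 2) * s ^ 2 - I / 2 * t * s ^ 2 - t ^ 2 * s ^ 2) * hI

/- With `δ n = φ (n + 1) - φ n`, `e n = exp (i φ n)`: `e n = ω n * (e (n + 1) - e n)`, where
`ω n = 1 / (exp (i δ n) - 1) = -1 / 2 - (i / 2) * cot (δ n / 2)`.  Sum by parts.  `‖ω n‖ = 1 / (2 |sin (δ n / 2)|) ≤ π / (2 η)`
(`Real.mul_le_sin`), the cotangent is decreasing on `(k π, (k + 1) π)`, so the differences `‖ω (n + 1) - ω n‖` telescope. -/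
theorem kl_mono {φ : ℕ → ℝ} {a b : ℕ} {η : ℝ} (k : ℤ) (hη : 0 < η)
    (hm : ∀ n, a ≤ n → n + 1 < b → φ (n + 1) - φ n ≤ φ (n + 2) - φ (n + 1))
    (h : ∀ n, a ≤ n → n < b → 2 * Real.pi * k + η ≤ φ (n + 1) - φ n ∧
      φ (n + 1) - φ n ≤ 2 * Real.pi * (k + 1) - η) :
    ‖∑ n ∈ Finset.Ico a b, exp (I * (φ n : ℝ))‖ ≤ 10 / η := by
  rcases le_or_gt b a with hba | hab
  · rw [Finset.Ico_eq_empty_of_le hba, Finset.sum_empty, norm_zero]
    positivity
  have hp := Real.pi_pos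
  obtain ⟨θ, hθ⟩ : ∃ θ : ℕ → ℝ, ∀ n, θ n = (φ (n + 1) - φ n - 2 * Real.pi * k) / 2 :=
    ⟨_, fun _ => rfl⟩
  have ht : ∀ n, a ≤ n → n < b → η / 2 ≤ θ n ∧ θ n ≤ Real.pi - η / 2 := by
    intro n h1 h2
    obtain ⟨h3, h4⟩ := h n h1 h2
    rw [hθ]
    constructor <;> linarith
  have hηp : η ≤ Real.pi := by
    obtain ⟨h3, h4⟩ := ht a le_rfl hab
    linarith
  obtain ⟨c, hc⟩ : ∃ c : ℕ → ℝ, ∀ n, c n = Real.cos (θ n) / Real.sin (θ n) := ⟨_, fun _ => rfl⟩
  obtain ⟨ω, hω⟩ : ∃ ω : ℕ → ℂ, ∀ n, ω n = -1 / 2 - I / 2 * (c n : ℂ) := ⟨_, fun _ => rfl⟩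
  obtain ⟨e, he⟩ : ∃ e : ℕ → ℂ, ∀ n, e n = exp (I * (φ n : ℝ)) := ⟨_, fun _ => rfl⟩
  have hen : ∀ n, ‖e n‖ = 1 := fun n => by rw [he, Complex.norm_exp_I_mul_ofReal]
  have hcb : ∀ n, a ≤ n → n < b → |c n| ≤ Real.pi / η := by
    intro n h1 h2
    rw [hc]
    exact vkl_cot_le (ht n h1 h2).1 (ht n h1 h2).2 hη
  have hI2 : ‖I / 2‖ = 1 / 2 := by simp
  have hωb : ∀ n, a ≤ n → n < b → ‖ω n‖ ≤ Real.pi / η := by
    intro n h1 h2
    have h3 := hcb n h1 h2
    have h4 : 1 ≤ Real.pi / η := (one_le_div hη).2 hηp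
    have h5 : ‖(-1 / 2 : ℂ)‖ = 1 / 2 := by simp
    rw [hω]
    refine (norm_sub_le _ _).trans ?_
    rw [norm_mul, hI2, h5, norm_real, Real.norm_eq_abs]
    linarith
  have hkey : ∀ n, a ≤ n → n < b → e n = ω n * (e (n + 1) - e n) := by
    intro n h1 h2
    have hs : Real.sin (θ n) ≠ 0 :=
      ((div_pos hη hp).trans_le (vkl_sin (ht n h1 h2).1 (ht n h1 h2).2 hη)).ne'
    have h3 := vkl_om hs
    rw [← hc, ← hω] at h3
    have h4 : e (n + 1) = e n * exp (I * (2 * θ n : ℝ)) := by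
      rw [he, he, ← exp_add, ← mul_one (exp (I * (φ n : ℝ) + I * (2 * θ n : ℝ))),
        ← exp_int_mul_two_pi_mul_I k, ← exp_add, hθ]
      congr 1
      push_cast
      ring
    rw [h4]
    linear_combination (-e n) * h3
  have hind : ∀ m, a ≤ m → m < b →
      ‖∑ n ∈ Finset.Ico a (m + 1), e n - ω m * e (m + 1) + ω a * e a‖ ≤ (c a - c m) / 2 := by
    intro m hm1
    induction m, hm1 using Nat.le_induction with
    | base =>
      intro h2
      have h3 := hkey a le_rfl h2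
      have h4 : ∑ n ∈ Finset.Ico a (a + 1), e n - ω a * e (a + 1) + ω a * e a = 0 := by
        rw [Finset.sum_Ico_succ_top le_rfl, Finset.Ico_self, Finset.sum_empty]
        linear_combination h3
      rw [h4, norm_zero, sub_self, zero_div]
    | succ m hm1 ih =>
      intro h2
      have h3 := hkey (m + 1) (by omega) h2
      have h4 : ∑ n ∈ Finset.Ico a (m + 1 + 1), e n - ω (m + 1) * e (m + 1 + 1) + ω a * e a =
          (∑ n ∈ Finset.Ico a (m + 1), e n - ω m * e (m + 1) + ω a * e a) +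
            -(I / 2 * ((c m - c (m + 1) : ℝ) : ℂ) * e (m + 1)) := by
        rw [Finset.sum_Ico_succ_top (by omega : a ≤ m + 1), hω m]
        rw [hω (m + 1)] at h3 ⊢
        push_cast
        linear_combination h3
      have h5 : c (m + 1) ≤ c m := by
        rw [hc, hc]
        have t1 := ht m hm1 (by omega)
        have t2 := ht (m + 1) (by omega) h2
        refine vkl_cot_anti (by linarith [t1.1]) ?_ (by linarith [t2.2])
        have t3 := hm m hm1 h2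
        rw [hθ, hθ]
        linarith
      rw [h4]
      refine (norm_add_le _ _).trans ?_
      rw [norm_neg, norm_mul, norm_mul, hI2, hen, norm_real, Real.norm_eq_abs,
        abs_of_nonneg (by linarith)]
      have h6 := ih (by omega)
      linarith
  obtain ⟨m, rfl⟩ : ∃ m, b = m + 1 := ⟨b - 1, by omega⟩
  have hm1 : a ≤ m := by omega
  have h1 := hind m hm1 (by omega)
  have h2 : ∑ n ∈ Finset.Ico a (m + 1), exp (I * (φ n : ℝ)) =
      (∑ n ∈ Finset.Ico a (m + 1), e n - ω m * e (m + 1) + ω a * e a) +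
        (ω m * e (m + 1) - ω a * e a) := by
    rw [Finset.sum_congr rfl fun n _ => (he n).symm]
    ring
  rw [h2]
  refine (norm_add_le _ _).trans ?_
  have h3 : ‖ω m * e (m + 1) - ω a * e a‖ ≤ Real.pi / η + Real.pi / η := by
    refine (norm_sub_le _ _).trans ?_
    rw [norm_mul, norm_mul, hen, hen, mul_one, mul_one]
    exact add_le_add (hωb m hm1 (by omega)) (hωb a le_rfl hab)
  have h4 := abs_le.1 (hcb a le_rfl hab)
  have h5 := abs_le.1 (hcb m hm1 (by omega))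
  have h6 : 3 * (Real.pi / η) ≤ 10 / η := by
    rw [← mul_div_assoc]
    exact div_le_div_of_nonneg_right (by linarith [Real.pi_lt_d2]) hη.le
  linarith [h4.2, h5.1]

/- Apply `kl_mono` to `-φ` and `-k - 1`, take conjugates. -/
theorem kl_anti {φ : ℕ → ℝ} {a b : ℕ} {η : ℝ} (k : ℤ) (hη : 0 < η)
    (hm : ∀ n, a ≤ n → n + 1 < b → φ (n + 2) - φ (n + 1) ≤ φ (n + 1) - φ n)
    (h : ∀ n, a ≤ n → n < b → 2 * Real.pi * k + η ≤ φ (n + 1) - φ n ∧
      φ (n + 1) - φ n ≤ 2 * Real.pi * (k + 1) - η) :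
    ‖∑ n ∈ Finset.Ico a b, exp (I * (φ n : ℝ))‖ ≤ 10 / η := by
  have h1 := kl_mono (φ := fun n => -φ n) (a := a) (b := b) (-k - 1) hη
    (fun n h1 h2 => by linarith [hm n h1 h2])
    (fun n h1 h2 => by
      obtain ⟨h3, h4⟩ := h n h1 h2
      push_cast
      constructor <;> linarith)
  rw [← Complex.norm_conj, map_sum]
  refine le_trans (le_of_eq ?_) h1
  congr 1
  refine Finset.sum_congr rfl fun n _ => ?_
  rw [← exp_conj, map_mul, conj_I, conj_ofReal, ofReal_neg, neg_mul, mul_neg]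

end Pool.Agent.Lib.MP_7d48f8_nt
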